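import Pool.Agent.MP_649b0b_mp.H34.Main

/-!
A real permutation invariant qubit code of length 59 that corrects four errors.
-/

open Pool.Agent.MP_649b0b_mp.H34

/-- There is a real permutation invariant code of length `59` correcting `4` errors, and at this
code the set of all such codes is not a smooth embedded submanifold of any dimension above `3`. -/
theorem Pool.Agent.Results.MP_649b0b_mp.Length59.result :
    ∃ p ∈ realCodes 59 4, ∀ d, IsSubmanifoldAt (realCodes 59 4) p d → d ≤ 3 := main
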