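import Pool.Agent.MP_649b0b_mp.H70.Main

/-!
A quadratic lower bound for the length of permutation invariant qubit codes.
-/

open Pool.Agent.MP_649b0b_mp.H70

/-- A permutation invariant qubit code of length `n` which satisfies the Knill-Laflamme conditions
for `s ≥ 1` deletions (distance `d = s + 1`) has `d (d + 1) < 2 n`. -/
theorem Pool.Agent.Results.MP_649b0b_mp.QuadLower.result (n s : ℕ) (hs : 1 ≤ s) (hn : s ≤ n)
    (c : Fin 2 → Fin (n + 1) → ℂ) (h : IsDel n s c) : (s + 1) * (s + 2) < 2 * n :=
  main n s hs hn c h
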